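import Pool.Agent.SGL.StmtsU
import Pool.Agent.Helper57_SGL.XOR

/-! Squad SGL, row XOU: the x-coordinates exist, with a start (adapted from Helper57_SGL/XOR.lean). -/

set_option autoImplicit false

noncomputable section

namespace Pool.Agent.SGL.H79

open Pool.Agent.SGE Pool.Agent.SGP Pool.Agent.SGY Pool.Agent.SGD Pool.Agent.SGL

variable {V : Type}

open Pool.Agent.SGL.H57 (con_pw con_snoc)

theorem xou (xsl : XslStmt) : XouStmt := by
  intro V _ a b c E F N v C₁ C S R hP σ hσ j₀ hj₀ x₀ hx1 hx2 hx3
  classical
  -- members of the contour
  have hmem : ∀ n, n ≤ N → ∀ u ∈ C n, u ≠ a → ∃ l, l ≤ n ∧ v l = u := by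
    intro n hn u hu hua
    obtain ⟨y, hy⟩ := Pool.Agent.SGP.H56.contour_nb (R.st n hn).n2 hu
    rcases hy.2.1 with h | h
    · obtain ⟨i, -, h2, h3⟩ := h
      exact ⟨i, h2, h3⟩
    · rcases h with h | h
      · exact absurd h hua
      · exact ⟨0, Nat.zero_le _, by rw [R.v0]; exact h.symm⟩
  have hmem' : ∀ n, n ≤ N → ∀ u ∈ (C n).dropLast, ∃ l, l ≤ n ∧ v l = u := by
    intro n hn u hu
    have n2 := (R.st n hn).n2
    have hu1 : u ∈ C n := List.mem_of_mem_dropLast hu
    have hu2 : u ≠ a := by
      rintro rfl
      have h1 := n2.ls
      have h2 := n2.nd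
      have h3 : C n = (C n).dropLast ++ [u] := by
        obtain ⟨ys, hys⟩ := List.getLast?_eq_some_iff.1 h1
        rw [hys, List.dropLast_concat]
      rw [h3, List.nodup_append] at h2
      exact h2.2.2 u hu u (by simp) rfl
    exact hmem n hn u hu1 hu2
  have key : ∀ d n, n = j₀ + d → n ≤ N + 1 → ∃ x : V → ℝ,
      (∀ i, i ≤ j₀ → x (v i) = x₀ (v i)) ∧
      (∀ i j, i ≤ n → j ≤ n → x (v i) = x (v j) → i = j) ∧
      (∀ i, 1 ≤ i → i ≤ n → x (v 0) < x (v i)) ∧
      (∀ j, j₀ ≤ j → j ≤ n → (C j).dropLast.Pairwise (fun u w => x u < x w)) ∧
      (∀ j, j₀ ≤ j → j < n → Xg a v S σ x j) := by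
    intro d
    induction d with
    | zero =>
      intro n hn _
      have e0 : n = j₀ := by omega
      subst e0
      refine ⟨x₀, fun i _ => rfl, hx1, hx2, fun j h1 h2 => ?_, fun j h1 h2 => by omega⟩
      have e1 : j = n := by omega
      rw [e1]
      exact hx3
    | succ d ih =>
      intro n' hn' hn
      obtain ⟨n, hnd⟩ : ∃ n, n = j₀ + d := ⟨_, rfl⟩
      have e0 : n' = n + 1 := by omega
      subst e0
      have hnN : n ≤ N := by omega
      obtain ⟨x, I0, I1, I2, I3a, I4⟩ := ih n hnd (by omega)
      have I3 := I3a n (by omega) le_rfl
      have n2 := (R.st n hnN).n2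
      obtain ⟨P, p, mid, q, Q, s1, s2, s3⟩ := R.stp n hnN
      -- old values
      have hnew : ∀ l, l ≤ n → v l ≠ v (n + 1) := by
        intro l hl h
        have := R.inj l (n + 1) (by omega) (by omega) h
        omega
      have hva : ∀ l, l ≤ N + 1 → v l ≠ a := R.na
      -- the part without `a`
      obtain ⟨T, hT⟩ : ∃ T, T = (S n).filter (fun u => decide (u ≠ a)) := ⟨_, rfl⟩
      -- the common facts of the two cases
      obtain ⟨lq, Q', hTp, hD, hcon, hlq, hD', hTlast⟩ : ∃ (lq : Prop) (Q' : List V),
          (∃ mid', T = p :: mid') ∧ (C n).dropLast = P ++ (T ++ Q') ∧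
          (∀ u w, Con (S n) u w → u ≠ a → w ≠ a → Con T u w) ∧ (lq → 2 ≤ T.length) ∧
          ((¬ lq ∧ (C (n + 1)).dropLast = P ++ p :: [v (n + 1)]) ∨
            (lq ∧ (C (n + 1)).dropLast = P ++ p :: v (n + 1) :: q :: Q' ∧
              T.getLast? = some q)) ∧ (∀ u ∈ T, u ∈ C n ∧ u ≠ a) := by
        have hTm : ∀ u ∈ T, u ∈ C n ∧ u ≠ a := by
          intro u hu
          rw [hT, List.mem_filter] at hu
          refine ⟨?_, by simpa using hu.2⟩
          have h1 := hu.1
          rw [s1] at h1
          rw [s2]
          simp only [List.mem_append, List.mem_cons, List.not_mem_nil, or_false] at h1 ⊢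
          tauto
        rcases List.eq_nil_or_concat Q with hQ | ⟨Q', z, hQ⟩
        · -- `q = a`
          have hq : q = a := by
            have h1 := n2.ls
            rw [s2, hQ] at h1
            have h2 : P ++ p :: (mid ++ [q]) = (P ++ p :: mid) ++ [q] := by simp
            rw [h2, List.getLast?_append] at h1
            simpa using h1
          have hS : S n = (p :: mid) ++ [a] := by rw [s1, hq]; rfl
          have hnd := n2.nd
          rw [s2, hQ, hq] at hnd
          have hCn : C n = (P ++ (p :: mid)) ++ [a] := by rw [s2, hQ, hq]; simp
          have ha : a ∉ P ++ (p :: mid) := by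
            have h1 := n2.nd
            rw [hCn, List.nodup_append] at h1
            intro h2
            exact h1.2.2 a h2 a (by simp) rfl
          have hT' : T = p :: mid := by
            rw [hT, hS, List.filter_append]
            have h1 : (p :: mid).filter (fun u => decide (u ≠ a)) = p :: mid := by
              rw [List.filter_eq_self]
              intro u hu
              simp only [ne_eq, decide_eq_true_eq]
              rintro rfl
              exact ha (List.mem_append_right _ hu)
            rw [h1]
            simp
          refine ⟨False, [], ⟨mid, hT'⟩, ?_, ?_, fun h => h.elim, Or.inl ⟨fun h => h, ?_⟩, hTm⟩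
          · rw [hCn, List.dropLast_concat, hT']
            simp
          · intro u w h hu hw
            rw [hS] at h
            rw [hT']
            exact con_snoc h hu hw
          · rw [s3, hQ, hq]
            have : P ++ p :: v (n + 1) :: [a] = (P ++ p :: [v (n + 1)]) ++ [a] := by simp
            rw [this, List.dropLast_concat]
        · have hz : z = a := by
            have h1 := n2.ls
            rw [s2, hQ] at h1
            have h2 : P ++ p :: (mid ++ q :: (Q'.concat z)) =
              (P ++ p :: (mid ++ q :: Q')) ++ [z] := by simp
            rw [h2, List.getLast?_append] at h1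
            simpa using h1
          rw [hz] at hQ
          have hCn : C n = (P ++ (p :: (mid ++ q :: Q'))) ++ [a] := by rw [s2, hQ]; simp
          have ha : a ∉ P ++ (p :: (mid ++ q :: Q')) := by
            have h1 := n2.nd
            rw [hCn, List.nodup_append] at h1
            intro h2
            exact h1.2.2 a h2 a (by simp) rfl
          have hT' : T = S n := by
            rw [hT, List.filter_eq_self]
            intro u hu
            simp only [ne_eq, decide_eq_true_eq]
            rintro rfl
            apply ha
            rw [s1] at hu
            simp only [List.mem_append, List.mem_cons, List.not_mem_nil, or_false] at hu ⊢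
            tauto
          refine ⟨True, Q', ⟨mid ++ [q], by rw [hT', s1]⟩, ?_, ?_, fun _ => ?_,
            Or.inr ⟨trivial, ?_, ?_⟩, hTm⟩
          · rw [hCn, List.dropLast_concat, hT', s1]
            simp
          · intro u w h hu hw
            rw [hT']
            exact h
          · rw [hT', s1]
            simp
          · rw [s3, hQ]
            have : P ++ p :: v (n + 1) :: q :: (Q'.concat a) =
              (P ++ p :: v (n + 1) :: q :: Q') ++ [a] := by simp
            rw [this, List.dropLast_concat]
          · rw [hT', s1]
            have : p :: (mid ++ [q]) = (p :: mid) ++ [q] := rfl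
            rw [this, List.getLast?_append]
            simp
      obtain ⟨mid', hTp⟩ := hTp
      have I3' := I3
      rw [hD, List.pairwise_append, List.pairwise_append] at I3'
      obtain ⟨pwP, ⟨pwT, pwQ, pwTQ⟩, pwPT⟩ := I3'
      have hTv : ∀ u ∈ T, ∃ l, l ≤ n ∧ v l = u := fun u hu =>
        hmem n hnN u (hTlast u hu).1 (hTlast u hu).2
      have hpT : p ∈ T := by rw [hTp]; exact List.mem_cons_self
      -- the older elements of lower slices
      obtain ⟨L, hL⟩ : ∃ L : Set V, L = {u | ∃ l, l ≤ n ∧ σ l < σ (n + 1) ∧ v l = u} := ⟨_, rfl⟩
      obtain ⟨A, Y, B, t1, t2, t3⟩ : ∃ A Y B : List V, T = A ++ (Y ++ B) ∧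
          (∀ y ∈ Y, y ∈ L) ∧ (∀ y ∈ A ++ B, y ∉ L) := by
        by_cases hex : ∃ l, l ≤ n ∧ σ l < σ (n + 1)
        · obtain ⟨l₀, hl₀, hl₀'⟩ := hex
          obtain ⟨i, hi⟩ : ∃ i, i = Nat.findGreatest (fun l => σ l < σ (n + 1)) n := ⟨_, rfl⟩
          have hi1 : i ≤ n := by rw [hi]; exact Nat.findGreatest_le n
          have hi2 : σ i < σ (n + 1) := by
            rw [hi]
            exact Nat.findGreatest_spec (P := fun l => σ l < σ (n + 1)) hl₀ hl₀'
          have hi3 : ∀ l, l ≤ n → σ l < σ (n + 1) → l ≤ i := by
            intro l h1 h2
            rw [hi]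
            exact Nat.le_findGreatest h1 h2
          obtain ⟨A, Y, B, a1, a2, a3, a4⟩ := hP i n hi1 hnN
          refine ⟨A.filter (fun u => decide (u ≠ a)), Y.filter (fun u => decide (u ≠ a)),
            B.filter (fun u => decide (u ≠ a)), ?_, ?_, ?_⟩
          · rw [hT, a1, List.filter_append, List.filter_append]
          · intro y hy
            obtain ⟨l, hl, hl'⟩ := a2 y (List.mem_of_mem_filter hy)
            rw [hL]
            exact ⟨l, hl.trans hi1, lt_of_le_of_lt (hσ hl) hi2, hl'⟩
          · intro y hy hyL
            rw [← List.filter_append] at hy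
            rw [hL] at hyL
            obtain ⟨l, h1, h2, h3⟩ := hyL
            exact a3 y (List.mem_of_mem_filter hy) l (hi3 l h1 h2) h3
        · refine ⟨T, [], [], by simp, by simp, ?_⟩
          intro y _ hyL
          rw [hL] at hyL
          obtain ⟨l, h1, h2, -⟩ := hyL
          exact hex ⟨l, h1, h2⟩
      obtain ⟨ξ, z1, z2, z3, z4, z5, z6⟩ := xsl x T A Y B p L
        ((fun l => x (v l)) '' (Set.Iic n)) (x p + 1) lq pwT (by rw [hTp]; rfl) t1 t2 t3 hlq
        ((Set.finite_Iic n).image _) (by linarith)
      have u1 : Function.update x (v (n + 1)) ξ (v (n + 1)) = ξ := Function.update_self _ _ _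
      have u2 : ∀ l, l ≤ n → Function.update x (v (n + 1)) ξ (v l) = x (v l) := fun l hl =>
        Function.update_of_ne (hnew l hl) _ _
      have u3 : ∀ u ∈ (C n).dropLast, Function.update x (v (n + 1)) ξ u = x u := by
        intro u hu
        obtain ⟨l, hl, rfl⟩ := hmem' n hnN u hu
        exact u2 l hl
      refine ⟨Function.update x (v (n + 1)) ξ, ?_, ?_, ?_, ?_, ?_⟩
      · intro i hi
        rw [u2 i (by omega)]
        exact I0 i hi
      · -- injective
        intro i j hi hj h
        rcases Nat.lt_or_ge n i with hi' | hi'
        · have e1 : i = n + 1 := by omega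
          rcases Nat.lt_or_ge n j with hj' | hj'
          · omega
          · exfalso
            rw [e1, u1, u2 j hj'] at h
            exact z1 ⟨j, hj', h.symm⟩
        · rcases Nat.lt_or_ge n j with hj' | hj'
          · exfalso
            have e1 : j = n + 1 := by omega
            rw [e1, u1, u2 i hi'] at h
            exact z1 ⟨i, hi', h⟩
          · rw [u2 i hi', u2 j hj'] at h
            exact I1 i j hi' hj' h
      · intro i h1 h2
        rw [u2 0 (Nat.zero_le _)]
        rcases Nat.lt_or_ge n i with hi' | hi'
        · have e1 : i = n + 1 := by omega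
          rw [e1, u1]
          obtain ⟨l, hl, hl'⟩ := hTv p hpT
          refine lt_of_le_of_lt ?_ z2
          rw [← hl']
          rcases Nat.eq_zero_or_pos l with h0 | h0
          · rw [h0]
          · exact (I2 l h0 hl).le
        · rw [u2 i hi']
          exact I2 i h1 hi'
      · -- the contours
        intro j hj1 hj2
        rcases Nat.lt_or_ge n j with hj3 | hj3
        swap
        · refine List.Pairwise.imp_of_mem ?_ (I3a j hj1 hj3)
          intro u w hu hw h
          obtain ⟨l, hl, rfl⟩ := hmem' j (by omega) u hu
          obtain ⟨m, hm, rfl⟩ := hmem' j (by omega) w hw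
          rw [u2 l (by omega), u2 m (by omega)]
          exact h
        have ej : j = n + 1 := by omega
        rw [ej]
        have hpP : ∀ u ∈ P, x u < x p := fun u hu => pwPT u hu p (List.mem_append_left _ hpT)
        have hPd : ∀ u ∈ P, u ∈ (C n).dropLast := fun u hu => by
          rw [hD]; exact List.mem_append_left _ hu
        have hpd : p ∈ (C n).dropLast := by
          rw [hD]; exact List.mem_append_right _ (List.mem_append_left _ hpT)
        rcases hD' with ⟨hlq', hD'⟩ | ⟨hlq', hD', hTl⟩
        · rw [hD', List.pairwise_append]
          refine ⟨?_, ?_, ?_⟩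
          · refine List.Pairwise.imp_of_mem ?_ pwP
            intro u w hu hw h
            rw [u3 u (hPd u hu), u3 w (hPd w hw)]
            exact h
          · rw [List.pairwise_cons]
            refine ⟨?_, List.pairwise_singleton _ _⟩
            intro w hw
            rw [List.mem_singleton] at hw
            rw [hw, u1, u3 p hpd]
            exact z2
          · intro u hu w hw
            rw [List.mem_cons, List.mem_singleton] at hw
            rcases hw with rfl | rfl
            · rw [u3 u (hPd u hu), u3 _ hpd]
              exact hpP u hu
            · rw [u1, u3 u (hPd u hu)]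
              exact (hpP u hu).trans z2
        · have hqT : q ∈ T := List.mem_of_getLast? hTl
          have hξq : ξ < x q := z3 q hlq' hTl
          have hqd : q ∈ (C n).dropLast := by
            rw [hD]; exact List.mem_append_right _ (List.mem_append_left _ hqT)
          have hQd : ∀ w ∈ Q', w ∈ (C n).dropLast := fun w hw => by
            rw [hD]; exact List.mem_append_right _ (List.mem_append_right _ hw)
          have hqQ : ∀ w ∈ Q', x q < x w := fun w hw => pwTQ q hqT w hw
          rw [hD', List.pairwise_append]
          refine ⟨?_, ?_, ?_⟩
          · refine List.Pairwise.imp_of_mem ?_ pwP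
            intro u w hu hw h
            rw [u3 u (hPd u hu), u3 w (hPd w hw)]
            exact h
          · rw [List.pairwise_cons, List.pairwise_cons, List.pairwise_cons]
            refine ⟨?_, ?_, ?_, ?_⟩
            · intro w hw
              rw [List.mem_cons, List.mem_cons] at hw
              rcases hw with rfl | rfl | hw
              · rw [u1, u3 _ hpd]
                exact z2
              · rw [u3 _ hpd, u3 _ hqd]
                exact z2.trans hξq
              · rw [u3 _ hpd, u3 _ (hQd w hw)]
                exact (z2.trans hξq).trans (hqQ w hw)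
            · intro w hw
              rw [List.mem_cons] at hw
              rw [u1]
              rcases hw with rfl | hw
              · rw [u3 _ hqd]
                exact hξq
              · rw [u3 _ (hQd w hw)]
                exact hξq.trans (hqQ w hw)
            · intro w hw
              rw [u3 _ hqd, u3 _ (hQd w hw)]
              exact hqQ w hw
            · refine List.Pairwise.imp_of_mem ?_ pwQ
              intro u w hu hw h
              rw [u3 u (hQd u hu), u3 w (hQd w hw)]
              exact h
          · intro u hu w hw
            rw [List.mem_cons, List.mem_cons, List.mem_cons] at hw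
            rw [u3 u (hPd u hu)]
            rcases hw with rfl | rfl | rfl | hw
            · rw [u3 _ hpd]
              exact hpP u hu
            · rw [u1]
              exact (hpP u hu).trans z2
            · rw [u3 _ hqd]
              exact ((hpP u hu).trans z2).trans hξq
            · rw [u3 _ (hQd w hw)]
              exact (((hpP u hu).trans z2).trans hξq).trans (hqQ w hw)
      · -- the conditions
        intro j hj1 hj
        rcases Nat.lt_or_ge j n with hj' | hj'
        · have h0 := I4 j hj1 hj'
          refine ⟨?_, ?_, ?_⟩
          · intro l m hl hm h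
            rw [u2 l (by omega), u2 m (by omega)]
            exact h0.up l m hl hm h
          · intro l m hl hm h h1 h2
            rw [u2 l (by omega), u2 (j + 1) (by omega)]
            exact h0.lo l m hl hm h h1 h2
          · intro l m hl hm h h1 h2
            rw [u2 m (by omega), u2 (j + 1) (by omega)]
            exact h0.hi l m hl hm h h1 h2
        · have e1 : j = n := by omega
          subst e1
          have hin : ∀ l, l ≤ j → (v l ∈ L ↔ σ l < σ (j + 1)) := by
            intro l hl
            rw [hL]
            constructor
            · rintro ⟨l', h1, h2, h3⟩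
              have := R.inj l' l (by omega) (by omega) h3
              rw [this] at h2
              exact h2
            · intro h
              exact ⟨l, hl, h, rfl⟩
          have hc : ∀ l m, l ≤ j → m ≤ j → Con (S j) (v l) (v m) → Con T (v l) (v m) :=
            fun l m hl hm h => hcon _ _ h (hva l (by omega)) (hva m (by omega))
          refine ⟨?_, ?_, ?_⟩
          · intro l m hl hm h
            rw [u2 l hl, u2 m hm]
            exact con_pw pwT (hc l m hl hm h)
          · intro l m hl hm h h1 h2
            rw [u2 l hl, u1]
            refine z5 _ _ (hc l m hl hm h) ?_ ((hin m hm).2 h2)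
            intro h3
            have := (hin l hl).1 h3
            omega
          · intro l m hl hm h h1 h2
            rw [u2 m hm, u1]
            refine z6 _ _ (hc l m hl hm h) ((hin l hl).2 h1) ?_
            intro h3
            have := (hin m hm).1 h3
            omega
  obtain ⟨x, I0, I1, I2, I3, I4⟩ := key (N + 1 - j₀) (N + 1) (by omega) le_rfl
  exact ⟨x, I0, I1, I2, fun j h1 h2 => I3 j h1 (by omega), fun j h1 h2 => I4 j h1 (by omega)⟩

end Pool.Agent.SGL.H79
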